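import Pool.Agent.H180.FF.NumMain
import Pool.Agent.Q175.RS.Hodge
import Pool.Agent.Q210.FF.OddF

/-!
# Poles for products of diagonal hypersurfaces of odd degree over number fields

Let `m ≥ 3` be odd and let `K` be a number field which contains the `m`-th roots of unity, with an
embedding `σ : K → ℂ`. The cohomology of a diagonal hypersurface `∑ c_i x_i ^ m = 0` over `K`, and of
a product of such hypersurfaces, is a sum of lines `V(s)` stable under the absolute Galois group of
`K`; the line of the primitive cohomology attached to nonzero residues `a_i` with sum zero has the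
character `s = {(a_i, c_i)}`, and the character of a tensor product of lines is the union. Weil: the
Frobenius element of a prime of `K` with residue field `F` of `q` elements acts on `V(s)` as
`± q⁻¹ ∏ g(χ ^ a_i) / χ ^ a_i (c_i)`, where `χ` is the `m`-th power residue symbol. So the `L`-function
of `V(s)` has a pole at the edge of its domain of convergence (of order one) if and only if `V(s)`,
after the Tate twist, is fixed by the Galois group, if and only if `s` is `Fixed` (Hecke). The rank of
the group of the algebraic cycles over `K` is the number of the fixed lines whose residues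
are in the family `A` of the characters of algebraic classes on the complex Fermat varieties of degree
`m` (a fixed line which is spanned by a cycle over the algebraic closure is spanned by one over `K`).
The family `A` is `Admissible` (Shioda, Katsura, Aoki).

A pair of primes `(p, q)` dividing `m`, `q = 1` modulo `4`, `p` a square modulo `q`, has a point
`x² - p* y² = q z²` on its conic, and the exotic Hodge classes of the level `p q` are governed by the
number `β = x + y √p*` of `K`: the sign by which a Frobenius element of a prime of `K` over a prime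
`ℓ = 1` modulo `8 m` acts on these classes is the quadratic residue symbol of `β` (a symbol of
Redei). The theorem:

* let `S` be a set of such pairs such that `β`, `-β`, `2 β`, `-2 β` is not a square in `K` for
  the product `β` of the numbers of any nonempty subset of `S`. Then the order of the pole and
  the rank, both for a system of characters and all `N`, differ at most by a factor `2 ^ s`,
  `s ≤ 2 ^ (r - 1) - 1 - |S|`, `r` the number of primes dividing `m`; if `|S| = 2 ^ (r - 1) - 1`
  (one pair if `r = 2`, three pairs if `r = 3`) then EVERY fixed line is algebraic, for all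
  coefficients in `K` and all dimensions: the conjecture holds for all products of diagonal
  hypersurfaces of degree `m` over `K`, in all codimensions;
* if every prime dividing `m` is a square modulo every other one, at most one of them is `3` modulo
  `4`, and `K` is of odd degree over a subfield abelian over `ℚ`, for instance `K = F(ζ_m)` for a field
  `F` of odd degree, then the conditions hold for the set of all pairs.
-/

namespace Pool.Agent.Results.MP_058a58_ag.DiagonalSplitPrimes

open Filter Topology NumberField Pool.Agent.H916R2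

/-- The closure properties of the family of the characters of algebraic classes on the complex Fermat
varieties of degree `m`. -/
structure Admissible (m : ℕ) (A : Multiset (ZMod m) → Prop) : Prop where
  /-- members are Hodge characters -/
  hodge : ∀ s, A s → IsHodge m s
  /-- conjugation -/
  neg : ∀ s, A s → A (s.map fun a => -a)
  /-- pairs -/
  pair : ∀ a : ZMod m, a ≠ 0 → A {a, -a}
  /-- standard characters -/
  standard : ∀ p : ℕ, p.Prime → p ≠ 2 → p ∣ m → ∀ a : ZMod m, (p : ZMod m) * a ≠ 0 →
    A (-((p : ZMod m) * a) ::ₘ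
      (Multiset.range p).map fun i : ℕ => a + (i : ZMod m) * ((m / p : ℕ) : ZMod m))
  /-- closed under union -/
  join : ∀ s t, A s → A t → A (s + t)
  /-- closed under removal of a pair -/
  cancel : ∀ a s, A (a ::ₘ -a ::ₘ s) → A s

/-- `p* = ± p`, congruent to `1` modulo `4`, for an odd prime `p` -/
def pstar (p : ℕ) : ℤ := if p % 4 = 1 then (p : ℤ) else -(p : ℤ)

/-- `(p, q)` is a pair of different primes dividing `m`, `q` is `1` modulo `4`, `p` is a square modulo
`q`, and `x² - p* y² = q z²`, where `x` and `y` are coprime and `z` is not zero. -/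
structure SplitPair (m : ℕ) (e : ℕ × ℕ) (x y z : ℤ) : Prop where
  prime_left : e.1.Prime
  prime_right : e.2.Prime
  dvd_left : e.1 ∣ m
  dvd_right : e.2 ∣ m
  ne : e.1 ≠ e.2
  mod_four : e.2 % 4 = 1
  square : IsSquare ((e.1 : ℕ) : ZMod e.2)
  coprime : IsCoprime x y
  ne_zero : z ≠ 0
  conic : x ^ 2 - pstar e.1 * y ^ 2 = e.2 * z ^ 2

variable {K : Type} [Field K]

/-- For every nonempty set `E` of pairs in `S`, with `β = ∏ (x e + y e * ρ e)` over `E`, none of `β`,
`-β`, `2 β`, `-2 β` is a square in `K`. -/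
def NoSquares (S : Finset (ℕ × ℕ)) (x y : ℕ × ℕ → ℤ) (ρ : ℕ × ℕ → K) : Prop :=
  ∀ E ⊆ S, E.Nonempty → ∀ d : ℤ, d = 1 ∨ d = -1 ∨ d = 2 ∨ d = -2 →
    ¬ IsSquare ((d : K) * ∏ e ∈ E, ((x e : K) + y e * ρ e))

/-- Of two different primes dividing `m` one is `1` modulo `4`, and each is a square modulo the
other. -/
def AllPairsSplit (m : ℕ) : Prop := ∀ p ∈ m.primeFactors, ∀ q ∈ m.primeFactors, p ≠ q →
  (p % 4 = 1 ∨ q % 4 = 1) ∧ IsSquare ((p : ℕ) : ZMod q)

/-- `K` is of odd degree over a subfield which is abelian over `ℚ`, that is, contained in a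
cyclotomic field (Kronecker, Weber). -/
def OddOverAbelian (K : Type) [Field K] [NumberField K] : Prop :=
  ∃ F : IntermediateField ℚ K, (∃ n : ℕ, n ≠ 0 ∧ Nonempty (F →+* CyclotomicField n ℚ)) ∧
    Odd (Module.finrank F K)

/-- `χ` is the `m`-th power residue symbol of the residue field `φ : 𝓞 K → F`, with values in `ℂ` via
`σ : K → ℂ`. -/
structure IsResidueSymbol (m : ℕ) (σ : K →+* ℂ) {F : Type} [Field F] [Fintype F]
    (φ : 𝓞 K →+* F) (χ : MulChar F ℂ) : Prop where
  order : orderOf χ = m
  residue : ∀ x : 𝓞 K, φ x ≠ 0 → ∃ ζ : 𝓞 K, ζ ^ m = 1 ∧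
    φ ζ = φ x ^ ((Fintype.card F - 1) / m) ∧ χ (φ x) = σ (ζ : K)

/-- The line with the character `s = {(a_i, c_i)}`, twisted to weight zero, is fixed by the Galois
group of `K`: for all but finitely many residue fields `F` of `K`, with `q` elements and residue symbol
`χ`, one has `∏ g(χ ^ a_i) = q ^ (|s| / 2) * ∏ χ ^ a_i (c_i)`. -/
def Fixed (m : ℕ) (σ : K →+* ℂ) (s : Multiset (ZMod m × 𝓞 K)) : Prop :=
  ∃ N : ℕ, ∀ (F : Type) [Field F] [Fintype F] (φ : 𝓞 K →+* F), Function.Surjective φ →
    N < Fintype.card F → ∀ (χ : MulChar F ℂ) (ψ : AddChar F ℂ), IsResidueSymbol m σ φ χ → ψ ≠ 1 →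
      (s.map fun z => gaussSum (χ ^ z.1.val) ψ).prod =
        (Fintype.card F : ℂ) ^ (Multiset.card s / 2) *
          (s.map fun z => (χ ^ z.1.val) (φ z.2)).prod

/-- The union of the letters of the first word and of the negatives of the letters of the second. -/
def union {m : ℕ} {ι : Type} (L : ι → Multiset (ZMod m × 𝓞 K)) {N : ℕ}
    (w : (Fin N → ι) × (Fin N → ι)) : Multiset (ZMod m × 𝓞 K) :=
  ∑ i, L (w.1 i) + (∑ i, L (w.2 i)).map fun z => (-z.1, z.2)

/-- The number of the pairs of words of length `N` whose union is fixed by the Galois group of `K` and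
is, without the coefficients, in the family `P`. -/
noncomputable def fixedWords {m : ℕ} {ι : Type} (σ : K →+* ℂ) (L : ι → Multiset (ZMod m × 𝓞 K))
    (P : Multiset (ZMod m) → Prop) (N : ℕ) : ℕ :=
  Nat.card {w : (Fin N → ι) × (Fin N → ι) // P ((union L w).map Prod.fst) ∧ Fixed m σ (union L w)}

/-- For every finite nonempty system of characters there is a number `s ≤ b` such that the number of
the fixed pairs of words of length `N` is at most `2 ^ s` times the number of those in `A`, the
quotient tends to `1 / 2 ^ s`, and `s = 0` if and only if all fixed pairs of words are in `A`. -/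
def DyadicLaw (m : ℕ) (σ : K →+* ℂ) (A : Multiset (ZMod m) → Prop) (b : ℕ) : Prop :=
  ∀ (ι : Type) [Finite ι] [Nonempty ι] (L : ι → Multiset (ZMod m × 𝓞 K)),
    (∀ i, ∀ z ∈ L i, z.1 ≠ 0 ∧ z.2 ≠ 0) → (∀ i, ((L i).map Prod.fst).sum = 0) →
    ∃ s : ℕ, s ≤ b ∧
      (∀ N : ℕ, fixedWords σ L (fun _ => True) N ≤ 2 ^ s * fixedWords σ L A N) ∧
      Tendsto (fun N : ℕ => (fixedWords σ L A N : ℝ) / fixedWords σ L (fun _ => True) N)
        atTop (𝓝 (1 / 2 ^ s)) ∧
      (s = 0 ↔ ∀ (N : ℕ) (w : (Fin N → ι) × (Fin N → ι)),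
        Fixed m σ (union L w) → A ((union L w).map Prod.fst))

/-- All fixed lines of products of diagonal hypersurfaces of degree `m` over `K` are in `A`. -/
def AllFixedIn (m : ℕ) (σ : K →+* ℂ) (A : Multiset (ZMod m) → Prop) : Prop :=
  ∀ s : Multiset (ZMod m × 𝓞 K), (∀ z ∈ s, z.1 ≠ 0 ∧ z.2 ≠ 0) → (s.map Prod.fst).sum = 0 →
    Fixed m σ s → A (s.map Prod.fst)

/-- The law and, if its bound is zero, its consequence for single lines. -/
theorem law_and_all [NumberField K] (m : ℕ) (hm : 2 ≤ m) (hodd : Odd m) (ζ : K)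
    (hζ : IsPrimitiveRoot ζ m) (σ : K →+* ℂ) (A : Multiset (ZMod m) → Prop) (hA : Admissible m A)
    (S : Finset (ℕ × ℕ)) (x y z : ℕ × ℕ → ℤ) (ρ : ℕ × ℕ → K)
    (hS : ∀ e ∈ S, SplitPair m e (x e) (y e) (z e)) (hρ : ∀ e ∈ S, ρ e ^ 2 = (pstar e.1 : K))
    (hns : NoSquares S x y ρ) :
    DyadicLaw m σ A (2 ^ (m.primeFactors.card - 1) - 1 - S.card) ∧
      (2 ^ (m.primeFactors.card - 1) - 1 ≤ S.card → AllFixedIn m σ A) := by
  have hH := Pool.Agent.Q175.RS.hodge
  have : NeZero m := ⟨by omega⟩
  have hF : ∀ s : Multiset (ZMod m × 𝓞 K), Pool.Agent.Q59.RL.Fixed m σ s ↔ Fixed m σ s := by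
    intro s
    constructor
    · rintro ⟨N, hN⟩
      exact ⟨N, fun F _ _ φ h1 h2 χ ψ h3 h4 => hN F φ h1 h2 χ ψ ⟨h3.order, h3.residue⟩ h4⟩
    · rintro ⟨N, hN⟩
      exact ⟨N, fun F _ _ φ h1 h2 χ ψ h3 h4 => hN F φ h1 h2 χ ψ ⟨h3.order, h3.residue⟩ h4⟩
  have hAd : Pool.Agent.Q59.RL.Adm m A :=
    ⟨hA.hodge, hA.neg, hA.pair, hA.standard, fun h => absurd (even_iff_two_dvd.mpr h)
      (Nat.not_even_iff_odd.mpr hodd), hA.join, hA.cancel⟩
  have key : DyadicLaw m σ A (2 ^ (m.primeFactors.card - 1) - 1 - S.card) := by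
    intro ι _ _ L hL hsum
    have := Fintype.ofFinite ι
    have hhod : ∀ (N : ℕ) (w : (Fin N → ι) × (Fin N → ι)), Fixed m σ (union L w) →
        IsHodge m ((union L w).map Prod.fst) := by
      intro N w hw
      refine hH K σ m hm hζ.toInteger hζ.toInteger_isPrimitiveRoot _ ?_ ?_ ((hF _).mpr hw)
      · intro z hz
        rcases Multiset.mem_add.mp hz with h1 | h1
        · obtain ⟨i, _, hi⟩ := Multiset.mem_sum.mp h1
          exact hL _ z hi
        · obtain ⟨y, hy, rfl⟩ := Multiset.mem_map.mp h1
          obtain ⟨i, _, hi⟩ := Multiset.mem_sum.mp hy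
          exact ⟨neg_ne_zero.mpr (hL _ y hi).1, (hL _ y hi).2⟩
      · have h1 : ∀ (v : Fin N → ι), ((∑ i, L (v i)).map Prod.fst).sum = 0 := by
          intro v
          have h2 := map_sum (Multiset.mapAddMonoidHom (Prod.fst : ZMod m × 𝓞 K → ZMod m))
            (fun i => L (v i)) Finset.univ
          change (∑ i, L (v i)).map Prod.fst = _ at h2
          rw [h2, Multiset.sum_sum]
          exact Finset.sum_eq_zero fun i _ => hsum (v i)
        unfold union
        rw [Multiset.map_add, Multiset.sum_add, h1, zero_add, Multiset.map_map]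
        have h3 : (Prod.fst ∘ fun z : ZMod m × 𝓞 K => (-z.1, z.2)) = fun z => -z.1 := rfl
        rw [h3, Multiset.sum_map_neg, h1, neg_zero]
    have e1 : ∀ N, fixedWords σ L (fun _ => True) N = fixedWords σ L (IsHodge m) N := by
      intro N
      unfold fixedWords
      apply Nat.card_congr
      apply Equiv.subtypeEquivRight
      intro w
      exact ⟨fun h => ⟨hhod N w h.2, h.2⟩, fun h => ⟨trivial, h.2⟩⟩
    obtain ⟨s, h0, h1, h2, h3⟩ := Pool.Agent.H180.FF.num_law K σ m hm hodd ζ hζ hAd S x y z
      (fun e he => ⟨(hS e he).prime_left, (hS e he).prime_right, (hS e he).dvd_left,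
        (hS e he).dvd_right, (hS e he).ne, (hS e he).mod_four, (hS e he).square,
        (hS e he).coprime, (hS e he).ne_zero, (hS e he).conic⟩) ρ hρ hns ι L hL hsum
    simp only [hF] at h1 h2 h3
    refine ⟨s, h0, ?_, ?_, ?_⟩
    · intro N
      rw [e1]
      exact h1 N
    · simp only [e1]
      exact h2
    · rw [h3]
      exact ⟨fun h N w hw => h N w (hhod N w hw) hw, fun h N w _ hw => h N w hw⟩
  refine ⟨key, ?_⟩
  intro hr s hs hsum hfix
  obtain ⟨e, he, _, _, h3⟩ := key Bool (fun b => if b then s else 0)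
    (by
      intro i z hz
      cases i
      · simp at hz
      · exact hs z (by simpa using hz))
    (by
      intro i
      cases i
      · simp
      · simpa using hsum)
  have he0 : e = 0 := by omega
  have h6 := h3.mp he0 1 (fun _ => true, fun _ => false)
  have h7 : union (fun b : Bool => if b then s else (0 : Multiset (ZMod m × 𝓞 K)))
      ((fun _ => true, fun _ => false) : (Fin 1 → Bool) × (Fin 1 → Bool)) = s := by
    unfold union
    simp
  rw [h7] at h6
  exact h6 hfix

/-- **Poles and ranks for products of diagonal hypersurfaces of odd degree over number fields.** -/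
theorem result [NumberField K] (m : ℕ) (hm : 2 ≤ m) (hodd : Odd m)
    (hμ : ∃ ζ : K, IsPrimitiveRoot ζ m) (σ : K →+* ℂ) (A : Multiset (ZMod m) → Prop)
    (hA : Admissible m A) :
    (∀ (S : Finset (ℕ × ℕ)) (x y z : ℕ × ℕ → ℤ) (ρ : ℕ × ℕ → K),
      (∀ e ∈ S, SplitPair m e (x e) (y e) (z e)) → (∀ e ∈ S, ρ e ^ 2 = (pstar e.1 : K)) →
      NoSquares S x y ρ →
        DyadicLaw m σ A (2 ^ (m.primeFactors.card - 1) - 1 - S.card) ∧
          (2 ^ (m.primeFactors.card - 1) - 1 ≤ S.card → AllFixedIn m σ A)) ∧
    (AllPairsSplit m → OddOverAbelian K →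
      DyadicLaw m σ A (2 ^ (m.primeFactors.card - 1) - 1 - m.primeFactors.card.choose 2) ∧
        (m.primeFactors.card ≤ 3 → AllFixedIn m σ A)) := by
  have : NeZero m := ⟨by omega⟩
  obtain ⟨ζ, hζ⟩ := hμ
  refine ⟨fun S x y z ρ hS hρ hns => law_and_all m hm hodd ζ hζ σ A hA S x y z ρ hS hρ hns, ?_⟩
  rintro hsp ⟨F, ⟨n, hn, hF⟩, hodF⟩
  obtain ⟨x, y, z, ρ, h1, h2, h3⟩ := Pool.Agent.H180.FF.all_data Pool.Agent.Q210.FF.oddF
    K m n
    hodd hn ζ hζ F hF hodF hsp
  obtain ⟨g1, g2⟩ := law_and_all m hm hodd ζ hζ σ A hA (Pool.Agent.H180.FF.oprs m) x y z ρ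
    (fun e he => by
      obtain ⟨a1, a2, a3, a4, a5, a6, a7, a8, a9, a10⟩ := h1 e he
      exact ⟨a1, a2, a3, a4, a5, a6, a7, a8, a9, a10⟩) h2 h3
  rw [Pool.Agent.H180.FF.card_oprs] at g1 g2
  refine ⟨g1, fun hr => g2 ?_⟩
  interval_cases m.primeFactors.card <;> decide

end Pool.Agent.Results.MP_058a58_ag.DiagonalSplitPrimes
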