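import Pool.Agent.Q59.DL.Law

/-!
# The order of growth of the defect in Tate's conjecture on poles for Fermat varieties

Let `n = 2 * k - 2` be an even dimension and let `X_m : x_0 ^ m + ... + x_(n+1) ^ m = 0` be the Fermat
variety of degree `m` and dimension `n`, over a number field `K` which contains enough roots of
unity (depending on `m`). The cohomology of degree `n` of `X_m` is, up to the class of the linear
sections, a sum of lines `V(s)` indexed by the tuples `s` of `n + 2 = 2 * k` nonzero residues modulo
`m` with sum zero. The order of the pole at `n / 2 + 1` in Tate's conjecture is one plus the number of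
the Hodge characters `s` (Weil, Stickelberger, Hecke), and the rank of the group of algebraic cycles
modulo homological equivalence is one plus the number of the `s` in `A m`, the family of the
characters of the lines which are spanned by classes of algebraic cycles. These families have the
closure properties of `Admissible` (Shioda, Katsura, Aoki) and they are compatible as in `System`
(pull-back and push-forward along `x_i ↦ x_i ^ N`). A Hodge character outside `A m` is called open.
So the defect

`order of the pole - rank of the cycles`

is `openLines A k m`, the number of the open characters of degree `m` with `2 * k` entries; Tate's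
conjecture says that it is zero.

The theorem. There is a constant `C` which depends on `k` only, such that for all systems `A` and ALL
degrees `m ≥ 2` the following holds. Let `g` be the greatest common divisor of `m` and
`degree (2 * k)` (an explicit number, the product of `p ^ (⌊8 k / (p - 1)⌋ + 1)` over the primes
`p ≤ 8 k + 1`).

* If in degree `g` there are no open characters with at most `2 * k` entries then the defect is zero.
* Otherwise let `2 * w` be the smallest number of the entries of an open character of degree `g`.
  Then `2 ≤ w ≤ k` and
  `(m - 1) ^ (k - w) ≤ defect ≤ C * m ^ (k - w)`.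
  Moreover `size p * size q ≤ 16 * w` for two different primes `p`, `q` such that
  `level p * level q` divides `m` (`size p = p - 1` and `level p = p` for odd `p`, `size 2 = 2` and
  `level 2 = 4`), and `size p * size q ≤ 8 * w` if `m` is odd.

So for every dimension the exact order of growth of the defect (a power of the degree) is determined
for all degrees by the finitely many divisors `g` of one number. For odd degrees whose two smallest
prime divisors are `p < q` the defect is at most `C * m ^ (k - (p - 1) * (q - 1) / 8)`, while both
numbers are asymptotic to `1 * 3 * ... * (2 * k - 1) * m ^ k`.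
-/

namespace Pool.Agent.Results.MP_058a58_ag.FermatDefectLaw

open Pool.Agent.H916R2

/-- The closure properties of the family of the characters of algebraic classes of degree `m`. -/
structure Admissible (m : ℕ) (A : Multiset (ZMod m) → Prop) : Prop where
  /-- members are Hodge characters -/
  hodge : ∀ s, A s → IsHodge m s
  /-- conjugation -/
  neg : ∀ s, A s → A (s.map fun a => -a)
  /-- pairs -/
  pair : ∀ a : ZMod m, a ≠ 0 → A {a, -a}
  /-- standard characters for odd primes -/
  standard : ∀ p : ℕ, p.Prime → p ≠ 2 → p ∣ m → ∀ a : ZMod m, (p : ZMod m) * a ≠ 0 →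
    A (-((p : ZMod m) * a) ::ₘ
      (Multiset.range p).map fun i : ℕ => a + (i : ZMod m) * ((m / p : ℕ) : ZMod m))
  /-- standard characters for the prime two -/
  standardTwo : 2 ∣ m → ∀ a : ZMod m, 2 * a ≠ 0 →
    A {a, a + ((m / 2 : ℕ) : ZMod m), -(2 * a), ((m / 2 : ℕ) : ZMod m)}
  /-- closed under union -/
  join : ∀ s t, A s → A t → A (s + t)
  /-- closed under removal of a pair -/
  cancel : ∀ a s, A (a ::ₘ -a ::ₘ s) → A s

/-- Admissible families of all degrees, compatible with the multiplications by positive integers. -/
structure System (A : (m : ℕ) → Multiset (ZMod m) → Prop) : Prop where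
  /-- every family is admissible -/
  admissible : ∀ m : ℕ, 0 < m → Admissible m (A m)
  /-- pull-back and push-forward along `x_i ↦ x_i ^ N` -/
  level : ∀ N m M : ℕ, 0 < M → N * m = M → ∀ s : Multiset (ZMod m),
    A m s ↔ A M (s.map fun a => ((N * a.val : ℕ) : ZMod M))

/-- The number of the open characters of degree `m` with `2 * k` entries (as tuples): Hodge
characters which do not belong to the family `A m`. -/
noncomputable def openLines (A : (m : ℕ) → Multiset (ZMod m) → Prop) (k m : ℕ) : ℕ :=
  Nat.card {s : Fin (2 * k) → ZMod m //
    IsHodge m ((Finset.univ : Finset (Fin (2 * k))).val.map s) ∧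
      ¬ A m ((Finset.univ : Finset (Fin (2 * k))).val.map s)}

/-- There is an open character of degree `m` with `2 * w` entries. -/
def HasOpen (A : (m : ℕ) → Multiset (ZMod m) → Prop) (m w : ℕ) : Prop :=
  ∃ t : Multiset (ZMod m), IsHodge m t ∧ Multiset.card t = 2 * w ∧ ¬ A m t

/-- The product of `p ^ (⌊4 N / (p - 1)⌋ + 1)` over the primes `p ≤ 4 N + 1`. -/
def degree (N : ℕ) : ℕ :=
  ∏ p ∈ (Finset.range (4 * N + 2)).filter Nat.Prime, p ^ (4 * N / (p - 1) + 1)

/-- `4` for the prime `2`, and `p` for an odd prime `p`. -/
def level (p : ℕ) : ℕ := if p = 2 then 4 else p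

/-- `2` for the prime `2`, and `p - 1` for an odd prime `p`. -/
def size (p : ℕ) : ℕ := if p = 2 then 2 else p - 1

/-- **The defect is zero or of the exact order `m ^ (k - w)`.** -/
theorem result (k : ℕ) : ∃ C : ℕ, 0 < C ∧
    ∀ A : (m : ℕ) → Multiset (ZMod m) → Prop, System A → ∀ m : ℕ, 2 ≤ m →
      ((∀ v ≤ k, ¬ HasOpen A (Nat.gcd m (degree (2 * k))) v) → openLines A k m = 0) ∧
      ∀ w ≤ k, HasOpen A (Nat.gcd m (degree (2 * k))) w →
        (∀ v < w, ¬ HasOpen A (Nat.gcd m (degree (2 * k))) v) →
          2 ≤ w ∧ (m - 1) ^ (k - w) ≤ openLines A k m ∧ openLines A k m ≤ C * m ^ (k - w) ∧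
          ∃ p q : ℕ, p.Prime ∧ q.Prime ∧ p ≠ q ∧ level p * level q ∣ m ∧
            size p * size q ≤ 16 * w ∧ (Odd m → size p * size q ≤ 8 * w) := by
  obtain ⟨C, hC0, hC⟩ := Pool.Agent.Q59.DL.defect k
  refine ⟨C, hC0, fun A hA m hm => ?_⟩
  have hA' : Pool.Agent.Q59.RL.AdmSys A := ⟨fun m hm => by
      have h := hA.admissible m hm
      exact ⟨h.hodge, h.neg, h.pair, h.standard, h.standardTwo, h.join, h.cancel⟩,
    fun N m M hM h s => hA.level N m M hM h s⟩
  exact hC A hA' m hm

end Pool.Agent.Results.MP_058a58_ag.FermatDefectLaw
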