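import Pool.Agent.Q59.QP.Fin

/-!
# For Fermat varieties both numbers in Tate's conjecture are quasi-polynomials in the degree

Let `n = 2 * k - 2` be an even dimension and let `X_m : x_0 ^ m + ... + x_(n+1) ^ m = 0` be the Fermat
variety of degree `m` and dimension `n`, over a number field `K` which contains enough roots of
unity (depending on `m`). The cohomology of degree `n` of `X_m` is, up to the class of the linear
sections, a sum of lines `V(s)` indexed by the tuples `s` of `n + 2 = 2 * k` nonzero residues modulo
`m` with sum zero. By Weil, Stickelberger and Hecke the line `V(s)` contributes a pole (of order one) at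
`s = n / 2 + 1` to the `L`-function of `X_m` over `K` if and only if `s` is a Hodge character. So up to one
(the linear sections) the order of the pole in Tate's conjecture is `hodgeLines k m`, the number of
the Hodge characters of degree `m` with `2 * k` entries.

For every `m` let `A m` be the family of the characters of the lines which are spanned by classes of
algebraic cycles. These families have the closure properties of `Admissible` (Shioda, Katsura,
Aoki) and they are compatible as in `System` (pull-back and push-forward along `x_i ↦ x_i ^ N`). The
rank of the group of the algebraic cycles of dimension `n / 2` on `X_m` modulo homological equivalence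
is, up to one, `algebraicLines A k m`.

The theorem. For every dimension there are a period `P` and polynomials `Q j`, `R j` of degree at most
`k - 1 = n / 2` such that for ALL degrees `m ≥ 1`

`order of the pole - 1 = (2 k - 1)!! * m ^ k + Q (m mod P) (m)`,
`rank of the cycles - 1 = (2 k - 1)!! * m ^ k + R (m mod P) (m)`,

where `(2 k - 1)!! = 1 * 3 * 5 * ... * (n + 1)`. Both numbers are quasi-polynomials of degree
`n / 2 + 1` in the degree `m` with the same leading term. The polynomials `Q j` and `R j` differ by a
polynomial of degree at most `k - 2`, hence already their terms of degree `k - 1` agree; if the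
Hodge conjecture is known for the Fermat varieties of dimension smaller than `2 * T - 2`, then the
degree of the difference is at most `k - T` (by Lefschetz one can take `T = 3`).

For surfaces (`k = 2`) this is the shape of the formula of Aoki and Shioda for the Picard number,
`3 (m - 1) (m - 2) + 1 + δ(m) + 48 (m / 2)^* + 24 (m / 3)^* + ε(m)`.
-/

namespace Pool.Agent.Results.MP_058a58_ag.FermatQuasiPolynomial

open Pool.Agent.H916R2
open scoped Nat

/-- The closure properties of the family of the characters of algebraic classes of degree `m`. -/
structure Admissible (m : ℕ) (A : Multiset (ZMod m) → Prop) : Prop where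
  /-- members are Hodge characters -/
  hodge : ∀ s, A s → IsHodge m s
  /-- conjugation -/
  neg : ∀ s, A s → A (s.map fun a => -a)
  /-- pairs -/
  pair : ∀ a : ZMod m, a ≠ 0 → A {a, -a}
  /-- standard characters for odd primes -/
  standard : ∀ p : ℕ, p.Prime → p ≠ 2 → p ∣ m → ∀ a : ZMod m, (p : ZMod m) * a ≠ 0 →
    A (-((p : ZMod m) * a) ::ₘ
      (Multiset.range p).map fun i : ℕ => a + (i : ZMod m) * ((m / p : ℕ) : ZMod m))
  /-- standard characters for the prime two -/
  standardTwo : 2 ∣ m → ∀ a : ZMod m, 2 * a ≠ 0 →
    A {a, a + ((m / 2 : ℕ) : ZMod m), -(2 * a), ((m / 2 : ℕ) : ZMod m)}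
  /-- closed under union -/
  join : ∀ s t, A s → A t → A (s + t)
  /-- closed under removal of a pair -/
  cancel : ∀ a s, A (a ::ₘ -a ::ₘ s) → A s

/-- Admissible families of all degrees, compatible with the multiplications by positive integers. -/
structure System (A : (m : ℕ) → Multiset (ZMod m) → Prop) : Prop where
  /-- every family is admissible -/
  admissible : ∀ m : ℕ, 0 < m → Admissible m (A m)
  /-- pull-back and push-forward along `x_i ↦ x_i ^ N` -/
  level : ∀ N m M : ℕ, 0 < M → N * m = M → ∀ s : Multiset (ZMod m),
    A m s ↔ A M (s.map fun a => ((N * a.val : ℕ) : ZMod M))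

/-- The number of the Hodge characters of degree `m` with `2 * k` entries, as tuples: the dimension
of the space of the primitive Hodge classes on the Fermat variety of degree `m` and dimension
`2 * k - 2`. -/
noncomputable def hodgeLines (k m : ℕ) : ℕ :=
  Nat.card {s : Fin (2 * k) → ZMod m // IsHodge m ((Finset.univ : Finset (Fin (2 * k))).val.map s)}

/-- The number of those which belong to the family `A`: the dimension of the space of the primitive
algebraic classes, if `A` is the family of the characters of algebraic classes. -/
noncomputable def algebraicLines (A : (m : ℕ) → Multiset (ZMod m) → Prop) (k m : ℕ) : ℕ :=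
  Nat.card {s : Fin (2 * k) → ZMod m // A m ((Finset.univ : Finset (Fin (2 * k))).val.map s)}

/-- **The order of the pole and the rank of the cycles are quasi-polynomials in the degree.** -/
theorem result (A : (m : ℕ) → Multiset (ZMod m) → Prop) (hA : System A) (k : ℕ) (hk : 0 < k) :
    ∃ P : ℕ, 0 < P ∧ ∃ Q R : ℕ → Polynomial ℚ,
      (∀ j, (Q j).natDegree ≤ k - 1 ∧ (R j).natDegree ≤ k - 1) ∧
      (∀ m, 0 < m →
        (hodgeLines k m : ℚ) = ((2 * k - 1)‼ : ℕ) * (m : ℚ) ^ k + (Q (m % P)).eval (m : ℚ) ∧
        (algebraicLines A k m : ℚ) =
          ((2 * k - 1)‼ : ℕ) * (m : ℚ) ^ k + (R (m % P)).eval (m : ℚ)) ∧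
      (2 ≤ k → ∀ j, (Q j - R j).natDegree ≤ k - 2) ∧
      ∀ T, 0 < T → T ≤ k →
        (∀ (m : ℕ) (t : Multiset (ZMod m)), 0 < m → IsHodge m t → Multiset.card t < 2 * T →
          A m t) →
        ∀ j, (Q j - R j).natDegree ≤ k - T := by
  have hA' : Pool.Agent.Q59.RL.AdmSys A := ⟨fun m hm => by
      have h := hA.admissible m hm
      exact ⟨h.hodge, h.neg, h.pair, h.standard, h.standardTwo, h.join, h.cancel⟩,
    fun N m M hM h s => hA.level N m M hM h s⟩
  obtain ⟨P, hP, Q, R, h1, h2, h3⟩ := Pool.Agent.Q59.QP.main hA' hk
  exact ⟨P, hP, Q, R, h1, h2,
    fun hk2 j => (h3 2 two_pos (Pool.Agent.Q59.QP.short_two hA') j).1 hk2,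
    fun T hT hTk hs j => (h3 T hT hs j).1 hTk⟩

end Pool.Agent.Results.MP_058a58_ag.FermatQuasiPolynomial
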