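import Pool.Agent.H180.RS.MainK
import Pool.Agent.Q175.RS.Hodge

/-!
# Tate's conjecture on the pole for diagonal hypersurfaces over abelian fields

Let `m ≥ 2` and let `K` be a number field which contains the `m`-th roots of unity, with an embedding
`σ : K → ℂ`. The cohomology of a diagonal hypersurface `∑ c_i x_i ^ m = 0` over `K`, and of a product of
such hypersurfaces, is a sum of lines `V(s)` stable under the absolute Galois group of `K`; the line
of the primitive cohomology attached to nonzero residues `a_i` with sum zero has the character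
`s = {(a_i, c_i)}`, and the character of a tensor product of lines is the union. Weil: the Frobenius
element of a prime of `K` with residue field `F` of `q` elements acts on `V(s)` as
`± q⁻¹ ∏ g(χ ^ a_i) / χ ^ a_i (c_i)`, where `χ` is the `m`-th power residue symbol. So the `L`-function
of `V(s)` has a pole at the edge of its domain of convergence (of order one) if and only if `V(s)`,
after the Tate twist, is fixed by the Galois group, if and only if `s` is `Fixed` (Hecke). The rank of
the group of the algebraic cycles over `K` is the number of the fixed lines whose residues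
are in the family `A` of the characters of algebraic classes on the complex Fermat varieties of degree
`m` (a fixed line which is spanned by a cycle over the algebraic closure is spanned by one over `K`).
The family `A` is `Admissible` (Shioda, Katsura, Aoki).

Let `L i` (`i ∈ ι`, finite) be characters of products of diagonal hypersurfaces over `K`, for instance
all characters of the cohomology of one product `X`. The pairs of words of length `N` in the letters
index lines of the cohomology of `X ^ (2 N)`. The theorem:

* there is a number `s ≤ 2 ^ (r - 1) - 1`, where `r` is the number of odd primes dividing `m`, plus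
  one if `4` divides `m`, such that for every `N` the contribution of these lines to the order
  of the pole is at most `2 ^ s` times their contribution to the rank, the quotient rank / order
  tends to `1 / 2 ^ s` for `N → ∞`, and `s = 0` if and only if the two contributions agree for all `N`;
* if `K` is an abelian number field, `m` is odd, and at most two primes dividing `m` are `3`
  modulo `4`, then `s ≤ 2 ^ (r - 1) - 1 - r (r - 1) / 2`;
* if moreover `r ≤ 3`, then EVERY fixed line is algebraic, for all coefficients in `K` and all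
  dimensions: the conjecture of Tate on the pole holds for all products of diagonal hypersurfaces of
  degree `m` over `K`, in all codimensions (although the Hodge conjecture is not known for them).

Reason: the exotic Hodge classes of the level `p q` are not fixed by the Galois group of any abelian
field, since the sign of the product of Gauss sums of such a class at a prime `ℓ` is
a symbol of Redei: the quadratic residue symbol modulo `ℓ` of `x + y √p*`, where
`x² - p* y² = q z²` (and similarly for nonresidue triangles `p, q, r`), so the signs of sums of these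
classes are governed by fields which are not abelian over `ℚ`.
-/

namespace Pool.Agent.Results.MP_058a58_ag.PoleAbelianLaw

open Filter Topology NumberField Pool.Agent.H916R2

/-- The closure properties of the family of the characters of algebraic classes on the complex Fermat
varieties of degree `m`. -/
structure Admissible (m : ℕ) (A : Multiset (ZMod m) → Prop) : Prop where
  /-- members are Hodge characters -/
  hodge : ∀ s, A s → IsHodge m s
  /-- conjugation -/
  neg : ∀ s, A s → A (s.map fun a => -a)
  /-- pairs -/
  pair : ∀ a : ZMod m, a ≠ 0 → A {a, -a}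
  /-- standard characters for odd primes -/
  standard : ∀ p : ℕ, p.Prime → p ≠ 2 → p ∣ m → ∀ a : ZMod m, (p : ZMod m) * a ≠ 0 →
    A (-((p : ZMod m) * a) ::ₘ
      (Multiset.range p).map fun i : ℕ => a + (i : ZMod m) * ((m / p : ℕ) : ZMod m))
  /-- standard characters for the prime two -/
  standardTwo : 2 ∣ m → ∀ a : ZMod m, 2 * a ≠ 0 →
    A {a, a + ((m / 2 : ℕ) : ZMod m), -(2 * a), ((m / 2 : ℕ) : ZMod m)}
  /-- closed under union -/
  join : ∀ s t, A s → A t → A (s + t)
  /-- closed under removal of a pair -/
  cancel : ∀ a s, A (a ::ₘ -a ::ₘ s) → A s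

/-- The number of odd primes dividing `m`, plus one if `4` divides `m`. -/
def rank (m : ℕ) : ℕ := (m.primeFactors.filter fun p => p ≠ 2 ∨ 4 ∣ m).card

variable {K : Type} [Field K]

/-- `K` is abelian over `ℚ`, that is, a subfield of a cyclotomic field (Kronecker, Weber), `m` is odd,
and at most two of the primes dividing `m` are `3` modulo `4`. -/
def AbelianOdd (m : ℕ) (K : Type) [Field K] : Prop :=
  (∃ n : ℕ, n ≠ 0 ∧ Nonempty (K →+* CyclotomicField n ℚ)) ∧ Odd m ∧
    (m.primeFactors.filter fun p => p % 4 = 3).card ≤ 2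

/-- `χ` is the `m`-th power residue symbol of the residue field `φ : 𝓞 K → F`, with values in `ℂ` via
`σ : K → ℂ`. -/
structure IsResidueSymbol (m : ℕ) (σ : K →+* ℂ) {F : Type} [Field F] [Fintype F]
    (φ : 𝓞 K →+* F) (χ : MulChar F ℂ) : Prop where
  order : orderOf χ = m
  residue : ∀ x : 𝓞 K, φ x ≠ 0 → ∃ ζ : 𝓞 K, ζ ^ m = 1 ∧
    φ ζ = φ x ^ ((Fintype.card F - 1) / m) ∧ χ (φ x) = σ (ζ : K)

/-- The line with the character `s = {(a_i, c_i)}`, twisted to weight zero, is fixed by the Galois
group of `K`: for all but finitely many residue fields `F` of `K`, with `q` elements and residue symbol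
`χ`, one has `∏ g(χ ^ a_i) = q ^ (|s| / 2) * ∏ χ ^ a_i (c_i)`. -/
def Fixed (m : ℕ) (σ : K →+* ℂ) (s : Multiset (ZMod m × 𝓞 K)) : Prop :=
  ∃ N : ℕ, ∀ (F : Type) [Field F] [Fintype F] (φ : 𝓞 K →+* F), Function.Surjective φ →
    N < Fintype.card F → ∀ (χ : MulChar F ℂ) (ψ : AddChar F ℂ), IsResidueSymbol m σ φ χ → ψ ≠ 1 →
      (s.map fun z => gaussSum (χ ^ z.1.val) ψ).prod =
        (Fintype.card F : ℂ) ^ (Multiset.card s / 2) *
          (s.map fun z => (χ ^ z.1.val) (φ z.2)).prod

/-- The union of the letters of the first word and of the negatives of the letters of the second. -/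
def union {m : ℕ} {ι : Type} (L : ι → Multiset (ZMod m × 𝓞 K)) {N : ℕ}
    (w : (Fin N → ι) × (Fin N → ι)) : Multiset (ZMod m × 𝓞 K) :=
  ∑ i, L (w.1 i) + (∑ i, L (w.2 i)).map fun z => (-z.1, z.2)

/-- The number of the pairs of words of length `N` whose union is fixed by the Galois group of `K` and
is, without the coefficients, in the family `P`. -/
noncomputable def fixedWords {m : ℕ} {ι : Type} (σ : K →+* ℂ) (L : ι → Multiset (ZMod m × 𝓞 K))
    (P : Multiset (ZMod m) → Prop) (N : ℕ) : ℕ :=
  Nat.card {w : (Fin N → ι) × (Fin N → ι) // P ((union L w).map Prod.fst) ∧ Fixed m σ (union L w)}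

/-- **Orders of poles and ranks for products of diagonal hypersurfaces, general and abelian fields.** -/
theorem result [NumberField K] (m : ℕ) (hm : 2 ≤ m) (hμ : ∃ ζ : K, IsPrimitiveRoot ζ m)
    (σ : K →+* ℂ) (A : Multiset (ZMod m) → Prop) (hA : Admissible m A) :
    (∀ (ι : Type) [Finite ι] [Nonempty ι] (L : ι → Multiset (ZMod m × 𝓞 K)),
      (∀ i, ∀ z ∈ L i, z.1 ≠ 0 ∧ z.2 ≠ 0) → (∀ i, ((L i).map Prod.fst).sum = 0) →
      ∃ s : ℕ, s ≤ 2 ^ (rank m - 1) - 1 ∧
        (AbelianOdd m K → s ≤ 2 ^ (rank m - 1) - 1 - (rank m).choose 2) ∧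
        (∀ N : ℕ, fixedWords σ L (fun _ => True) N ≤ 2 ^ s * fixedWords σ L A N) ∧
        Tendsto (fun N : ℕ => (fixedWords σ L A N : ℝ) / fixedWords σ L (fun _ => True) N)
          atTop (𝓝 (1 / 2 ^ s)) ∧
        (s = 0 ↔ ∀ (N : ℕ) (w : (Fin N → ι) × (Fin N → ι)),
          Fixed m σ (union L w) → A ((union L w).map Prod.fst))) ∧
    (AbelianOdd m K → rank m ≤ 3 → ∀ s : Multiset (ZMod m × 𝓞 K),
      (∀ z ∈ s, z.1 ≠ 0 ∧ z.2 ≠ 0) → (s.map Prod.fst).sum = 0 → Fixed m σ s →
        A (s.map Prod.fst)) := by
  have hH := Pool.Agent.Q175.RS.hodge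
  have : NeZero m := ⟨by omega⟩
  obtain ⟨ζ, hζ⟩ := hμ
  have hF : ∀ s : Multiset (ZMod m × 𝓞 K), Pool.Agent.Q59.RL.Fixed m σ s ↔ Fixed m σ s := by
    intro s
    constructor
    · rintro ⟨N, hN⟩
      exact ⟨N, fun F _ _ φ h1 h2 χ ψ h3 h4 => hN F φ h1 h2 χ ψ ⟨h3.order, h3.residue⟩ h4⟩
    · rintro ⟨N, hN⟩
      exact ⟨N, fun F _ _ φ h1 h2 χ ψ h3 h4 => hN F φ h1 h2 χ ψ ⟨h3.order, h3.residue⟩ h4⟩
  have hAd : Pool.Agent.Q59.RL.Adm m A :=
    ⟨hA.hodge, hA.neg, hA.pair, hA.standard, hA.standardTwo, hA.join, hA.cancel⟩
  have key : ∀ (ι : Type) [Finite ι] [Nonempty ι] (L : ι → Multiset (ZMod m × 𝓞 K)),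
      (∀ i, ∀ z ∈ L i, z.1 ≠ 0 ∧ z.2 ≠ 0) → (∀ i, ((L i).map Prod.fst).sum = 0) →
      ∃ s : ℕ, s ≤ 2 ^ (rank m - 1) - 1 ∧
        (AbelianOdd m K → s ≤ 2 ^ (rank m - 1) - 1 - (rank m).choose 2) ∧
        (∀ N : ℕ, fixedWords σ L (fun _ => True) N ≤ 2 ^ s * fixedWords σ L A N) ∧
        Tendsto (fun N : ℕ => (fixedWords σ L A N : ℝ) / fixedWords σ L (fun _ => True) N)
          atTop (𝓝 (1 / 2 ^ s)) ∧
        (s = 0 ↔ ∀ (N : ℕ) (w : (Fin N → ι) × (Fin N → ι)),
          Fixed m σ (union L w) → A ((union L w).map Prod.fst)) := by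
    intro ι _ _ L hL hsum
    have := Fintype.ofFinite ι
    -- fixed unions are of Hodge type
    have hhod : ∀ (N : ℕ) (w : (Fin N → ι) × (Fin N → ι)), Fixed m σ (union L w) →
        IsHodge m ((union L w).map Prod.fst) := by
      intro N w hw
      refine hH K σ m hm hζ.toInteger hζ.toInteger_isPrimitiveRoot _ ?_ ?_ ((hF _).mpr hw)
      · intro z hz
        rcases Multiset.mem_add.mp hz with h1 | h1
        · obtain ⟨i, _, hi⟩ := Multiset.mem_sum.mp h1
          exact hL _ z hi
        · obtain ⟨y, hy, rfl⟩ := Multiset.mem_map.mp h1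
          obtain ⟨i, _, hi⟩ := Multiset.mem_sum.mp hy
          exact ⟨neg_ne_zero.mpr (hL _ y hi).1, (hL _ y hi).2⟩
      · have h1 : ∀ (v : Fin N → ι), ((∑ i, L (v i)).map Prod.fst).sum = 0 := by
          intro v
          have h2 := map_sum (Multiset.mapAddMonoidHom (Prod.fst : ZMod m × 𝓞 K → ZMod m))
            (fun i => L (v i)) Finset.univ
          change (∑ i, L (v i)).map Prod.fst = _ at h2
          rw [h2, Multiset.sum_sum]
          exact Finset.sum_eq_zero fun i _ => hsum (v i)
        unfold union
        rw [Multiset.map_add, Multiset.sum_add, h1, zero_add, Multiset.map_map]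
        have h3 : (Prod.fst ∘ fun z : ZMod m × 𝓞 K => (-z.1, z.2)) = fun z => -z.1 := rfl
        rw [h3, Multiset.sum_map_neg, h1, neg_zero]
    have e1 : ∀ N, fixedWords σ L (fun _ => True) N = fixedWords σ L (IsHodge m) N := by
      intro N
      unfold fixedWords
      apply Nat.card_congr
      apply Equiv.subtypeEquivRight
      intro w
      exact ⟨fun h => ⟨hhod N w h.2, h.2⟩, fun h => ⟨trivial, h.2⟩⟩
    by_cases hab : AbelianOdd m K
    · obtain ⟨⟨n, hn, j⟩, hodd, hgd⟩ := hab
      have hr : rank m = m.primeFactors.card := by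
        unfold rank
        congr 1
        rw [Finset.filter_eq_self]
        intro p hp
        left
        rintro rfl
        have h1 := Nat.dvd_of_mem_primeFactors hp
        exact (Nat.not_even_iff_odd.mpr hodd) (even_iff_two_dvd.mpr h1)
      obtain ⟨s, h0, h1, h2, h3⟩ := Pool.Agent.H180.RS.ab_law n hn K j σ m hm hodd ζ hζ hgd hAd ι L
        hL hsum
      simp only [hF] at h1 h2 h3
      refine ⟨s, by rw [hr]; omega, fun _ => by rw [hr]; exact h0, ?_, ?_, ?_⟩
      · intro N
        rw [e1]
        exact h1 N
      · simp only [e1]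
        exact h2
      · rw [h3]
        exact ⟨fun h N w hw => h N w (hhod N w hw) hw, fun h N w _ hw => h N w hw⟩
    · obtain ⟨s, h0, h1, h2, h3⟩ := Pool.Agent.Q59.RL.fixed_law hAd hm σ L hL hsum
      simp only [hF] at h1 h2 h3
      refine ⟨s, h0, fun h => absurd h hab, ?_, ?_, ?_⟩
      · intro N
        rw [e1]
        exact h1 N
      · simp only [e1]
        exact h2
      · rw [h3]
        exact ⟨fun h N w hw => h N w (hhod N w hw) hw, fun h N w _ hw => h N w hw⟩
  refine ⟨key, ?_⟩
  intro hab hr s hs hsum hfix
  obtain ⟨e, _, he, _, _, h3⟩ := key Bool (fun b => if b then s else 0)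
    (by
      intro i z hz
      cases i
      · simp at hz
      · exact hs z (by simpa using hz))
    (by
      intro i
      cases i
      · simp
      · simpa using hsum)
  have he0 : e = 0 := by
    have h4 := he hab
    have h5 : 2 ^ (rank m - 1) - 1 - (rank m).choose 2 = 0 := by
      interval_cases rank m <;> decide
    omega
  have h6 := h3.mp he0 1 (fun _ => true, fun _ => false)
  have h7 : union (fun b : Bool => if b then s else (0 : Multiset (ZMod m × 𝓞 K)))
      ((fun _ => true, fun _ => false) : (Fin 1 → Bool) × (Fin 1 → Bool)) = s := by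
    unfold union
    simp
  rw [h7] at h6
  exact h6 hfix

end Pool.Agent.Results.MP_058a58_ag.PoleAbelianLaw
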